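import Mathlib
import Pool.Agent.H238R2.HY.Struct

set_option autoImplicit false
set_option linter.all false

namespace Pool.Agent.Results.MP_7b5b6d_co.ZelinkaBound

open Finset

/-- `X` is a dominating set of `H`: every vertex is in `X` or adjacent to a vertex of `X`. -/
def IsDominating {W : Type} (H : SimpleGraph W) (X : Set W) : Prop :=
  ∀ w : W, w ∈ X ∨ ∃ x ∈ X, H.Adj w x

/-- The domatic number of `H`: the largest `k` such that the vertex set can be partitioned into
`k` dominating sets (the classes of a map to `Fin k`). -/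
noncomputable def domaticNumber {W : Type} (H : SimpleGraph W) : ℕ :=
  sSup {k : ℕ | ∃ f : W → Fin k, ∀ i : Fin k, IsDominating H {w | f w = i}}

theorem exists_maximal_indep {V : Type} [Fintype V] [DecidableEq V] (G : SimpleGraph V) :
    ∃ S : Finset V, (∀ u ∈ S, ∀ v ∈ S, ¬ G.Adj u v) ∧ ∀ t, t ∉ S → ∃ s ∈ S, G.Adj t s := by
  classical
  obtain ⟨S, hS, hmax⟩ := Finset.exists_max_image
    (Finset.univ.filter (fun S : Finset V => ∀ u ∈ S, ∀ v ∈ S, ¬ G.Adj u v)) Finset.card
    ⟨∅, by simp⟩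
  rw [Finset.mem_filter] at hS
  refine ⟨S, hS.2, fun t ht => ?_⟩
  by_contra hcon
  push Not at hcon
  have := hmax (insert t S) (by
    rw [Finset.mem_filter]
    refine ⟨Finset.mem_univ _, fun u hu v hv => ?_⟩
    rcases Finset.mem_insert.1 hu with rfl | hu'
    · rcases Finset.mem_insert.1 hv with rfl | hv'
      · exact G.loopless.irrefl _
      · exact hcon v hv'
    · rcases Finset.mem_insert.1 hv with rfl | hv'
      · exact fun h => hcon u hu' h.symm
      · exact hS.2 u hu' v hv')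
  rw [Finset.card_insert_of_notMem ht] at this
  omega

theorem exists_map {V : Type} [DecidableEq V] (B : Finset V) (R : Finset ℕ)
    (h : B.card = R.card) : ∃ g : V → ℕ, B.image g = R := by
  classical
  let e : B ≃ R := Finset.equivOfCardEq h
  refine ⟨fun v => if hv : v ∈ B then (e ⟨v, hv⟩ : ℕ) else 0, ?_⟩
  ext n
  rw [Finset.mem_image]
  constructor
  · rintro ⟨v, hv, rfl⟩
    rw [dif_pos hv]
    exact (e ⟨v, hv⟩).2
  · intro hn
    refine ⟨(e.symm ⟨n, hn⟩ : V), (e.symm ⟨n, hn⟩).2, ?_⟩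
    rw [dif_pos (e.symm ⟨n, hn⟩).2]
    simp

/-- the main point: a symmetric colouring such that all vertices outside an independent set see
all `δ` colours -/
theorem colouring {V : Type} [Fintype V] [DecidableEq V] (G : SimpleGraph V) [DecidableRel G.Adj]
    (δ : ℕ) (hδ : 1 ≤ δ) (hdeg : ∀ v, δ ≤ G.degree v) :
    ∃ (S : Finset V) (col : V → V → ℕ), (∀ u ∈ S, ∀ v ∈ S, ¬ G.Adj u v) ∧
      (∀ u v, col u v = col v u) ∧ (∀ u v, col u v < δ) ∧
      ∀ t, t ∉ S → ∀ i < δ, ∃ v, G.Adj t v ∧ col t v = i := by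
  classical
  obtain ⟨S, hS, hmax⟩ := exists_maximal_indep G
  -- the chosen neighbours
  have hP : ∀ t : V, ∃ P : Finset V, P ⊆ G.neighborFinset t ∧ P.card = δ ∧
      (t ∉ S → ∃ s ∈ S, s ∈ P) := by
    intro t
    by_cases ht : t ∈ S
    · obtain ⟨P, hP1, hP2⟩ := Finset.exists_subset_card_eq (s := G.neighborFinset t) (n := δ)
        (by rw [G.card_neighborFinset_eq_degree]; exact hdeg t)
      exact ⟨P, hP1, hP2, fun h => absurd ht h⟩
    · obtain ⟨s, hs, hts⟩ := hmax t ht
      obtain ⟨P, hP0, hP1, hP2⟩ := Finset.exists_subsuperset_card_eq (s := {s})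
        (t := G.neighborFinset t) (n := δ)
        (by
          rw [Finset.singleton_subset_iff, SimpleGraph.mem_neighborFinset]
          exact hts)
        (by rw [Finset.card_singleton]; exact hδ)
        (by rw [G.card_neighborFinset_eq_degree]; exact hdeg t)
      exact ⟨P, hP1, hP2, fun _ => ⟨s, hs, hP0 (Finset.mem_singleton_self s)⟩⟩
  choose P hP1 hP2 hP3 using hP
  have hPadj : ∀ t v, v ∈ P t → G.Adj t v := fun t v hv =>
    (G.mem_neighborFinset t v).1 (hP1 t hv)
  -- the mutual graph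
  let Γ : SimpleGraph V :=
    { Adj := fun u v => u ∉ S ∧ v ∉ S ∧ v ∈ P u ∧ u ∈ P v
      symm := ⟨fun u v h => ⟨h.2.1, h.1, h.2.2.2, h.2.2.1⟩⟩
      loopless := ⟨fun u h => G.loopless.irrefl u (hPadj u u h.2.2.1)⟩ }
  have hΓ : ∀ u v, Γ.Adj u v ↔ u ∉ S ∧ v ∉ S ∧ v ∈ P u ∧ u ∈ P v := fun u v => Iff.rfl
  have hΓsub : ∀ v, Γ.neighborFinset v ⊆ P v := by
    intro v w hw
    rw [Γ.mem_neighborFinset, hΓ] at hw
    exact hw.2.2.1
  have hΓdeg : ∀ v, Γ.degree v ≤ δ - 1 := by
    intro v
    rw [← Γ.card_neighborFinset_eq_degree]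
    by_cases hv : v ∈ S
    · have : Γ.neighborFinset v = ∅ := by
        ext w
        rw [Γ.mem_neighborFinset, hΓ]
        simp [hv]
      rw [this]; simp
    · obtain ⟨s, hs, hsP⟩ := hP3 v hv
      have : Γ.neighborFinset v ⊆ (P v).erase s := by
        intro w hw
        rw [Finset.mem_erase]
        refine ⟨?_, hΓsub v hw⟩
        rintro rfl
        rw [Γ.mem_neighborFinset, hΓ] at hw
        exact hw.2.1 hs
      have := Finset.card_le_card this
      rwa [Finset.card_erase_of_mem hsP, hP2] at this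
  obtain ⟨c, hc1, hc2, hc3⟩ := Pool.Agent.H238R2.HY.vizing Γ (δ - 1) hΓdeg
  -- own edges
  have hg : ∀ t : V, ∃ g : V → ℕ, (P t \ Γ.neighborFinset t).image g =
      Finset.range δ \ (Γ.neighborFinset t).image (c t) := by
    intro t
    apply exists_map
    have h1 : (Γ.neighborFinset t).image (c t) ⊆ Finset.range δ := by
      intro n hn
      rw [Finset.mem_image] at hn
      obtain ⟨v, hv, rfl⟩ := hn
      rw [Γ.mem_neighborFinset] at hv
      have := hc2 t v hv
      rw [Finset.mem_range]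
      omega
    have h2 : ((Γ.neighborFinset t).image (c t)).card = (Γ.neighborFinset t).card := by
      apply Finset.card_image_of_injOn
      intro v hv w hw hvw
      by_contra hne
      rw [Finset.mem_coe, Γ.mem_neighborFinset] at hv hw
      exact hc3 t v w hv hw hne hvw
    rw [Finset.card_sdiff_of_subset (hΓsub t), Finset.card_sdiff_of_subset h1, h2,
      Finset.card_range, hP2]
  choose g hg using hg
  have hgmem : ∀ t v, v ∈ P t → ¬ Γ.Adj t v → g t v < δ := by
    intro t v hv hnv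
    have : g t v ∈ (P t \ Γ.neighborFinset t).image (g t) :=
      Finset.mem_image_of_mem _ (Finset.mem_sdiff.2 ⟨hv, fun h => hnv ((Γ.mem_neighborFinset t v).1 h)⟩)
    rw [hg, Finset.mem_sdiff, Finset.mem_range] at this
    exact this.1
  let own : V → V → Prop := fun u v => u ∉ S ∧ v ∈ P u ∧ ¬ Γ.Adj u v
  have hown : ∀ u v, own u v → own v u → False := by
    intro u v h1 h2
    exact h1.2.2 ⟨h1.1, h2.1, h1.2.1, h2.2.1⟩
  let col : V → V → ℕ := fun u v =>
    if Γ.Adj u v then c u v else if own u v then g u v else if own v u then g v u else 0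
  refine ⟨S, col, hS, ?_, ?_, ?_⟩
  · intro u v
    simp only [col]
    by_cases h1 : Γ.Adj u v
    · rw [if_pos h1, if_pos h1.symm, hc1]
    · have h1' : ¬ Γ.Adj v u := fun h => h1 h.symm
      rw [if_neg h1, if_neg h1']
      by_cases h2 : own u v
      · have h3 : ¬ own v u := fun h => hown u v h2 h
        rw [if_pos h2, if_neg h3, if_pos h2]
      · rw [if_neg h2]
        by_cases h3 : own v u
        · rw [if_pos h3, if_pos h3]
        · rw [if_neg h3, if_neg h3, if_neg h2]
  · intro u v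
    simp only [col]
    split_ifs with h1 h2 h3
    · have := hc2 u v h1
      omega
    · exact hgmem u v h2.2.1 h2.2.2
    · exact hgmem v u h3.2.1 h3.2.2
    · omega
  · intro t ht i hi
    by_cases hi' : i ∈ (Γ.neighborFinset t).image (c t)
    · rw [Finset.mem_image] at hi'
      obtain ⟨v, hv, rfl⟩ := hi'
      rw [Γ.mem_neighborFinset] at hv
      exact ⟨v, hPadj t v hv.2.2.1, by simp only [col]; rw [if_pos hv]⟩
    · have : i ∈ (P t \ Γ.neighborFinset t).image (g t) := by
        rw [hg, Finset.mem_sdiff, Finset.mem_range]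
        exact ⟨hi, hi'⟩
      rw [Finset.mem_image] at this
      obtain ⟨v, hv, rfl⟩ := this
      rw [Finset.mem_sdiff, Γ.mem_neighborFinset] at hv
      refine ⟨v, hPadj t v hv.1, ?_⟩
      simp only [col]
      rw [if_neg hv.2, if_pos ⟨ht, hv.1, hv.2⟩]

/-- The edges of `G` can be partitioned into `δ(G)` dominating sets of the line graph. -/
theorem partition {V : Type} [Fintype V] [DecidableEq V] (G : SimpleGraph V) [DecidableRel G.Adj]
    (δ : ℕ) (hδ : 1 ≤ δ) (hdeg : ∀ v, δ ≤ G.degree v) :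
    ∃ f : G.edgeSet → Fin δ, ∀ i : Fin δ, IsDominating G.lineGraph {e | f e = i} := by
  classical
  obtain ⟨S, col, hS, hsymm, hlt, hall⟩ := colouring G δ hδ hdeg
  let F : Sym2 V → ℕ := Sym2.lift ⟨col, hsymm⟩
  have hF : ∀ u v, F s(u, v) = col u v := fun u v => rfl
  have hFlt : ∀ e, F e < δ := by
    intro e
    induction e using Sym2.ind with
    | _ u v => rw [hF]; exact hlt u v
  refine ⟨fun e => ⟨F e.1, hFlt e.1⟩, fun i e => ?_⟩
  obtain ⟨e, he⟩ := e
  induction e using Sym2.ind with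
  | _ u v =>
  have huv : G.Adj u v := he
  have key : ∀ t, t ∉ S → t ∈ s(u, v) → (⟨s(u, v), he⟩ : G.edgeSet) ∈
      {e : G.edgeSet | (⟨F e.1, hFlt e.1⟩ : Fin δ) = i} ∨
      ∃ x ∈ {e : G.edgeSet | (⟨F e.1, hFlt e.1⟩ : Fin δ) = i},
        G.lineGraph.Adj ⟨s(u, v), he⟩ x := by
    intro t ht htm
    obtain ⟨w, hw, hcw⟩ := hall t ht i.1 i.2
    have hmem : (⟨s(t, w), hw⟩ : G.edgeSet) ∈
        {e : G.edgeSet | (⟨F e.1, hFlt e.1⟩ : Fin δ) = i} := by
      apply Fin.ext
      exact hcw
    by_cases heq : (⟨s(u, v), he⟩ : G.edgeSet) = ⟨s(t, w), hw⟩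
    · left
      rw [heq]
      exact hmem
    · right
      refine ⟨_, hmem, ?_⟩
      rw [SimpleGraph.lineGraph_adj_iff_exists]
      exact ⟨heq, t, htm, Sym2.mem_mk_left t w⟩
  by_cases hu : u ∈ S
  · have hv : v ∉ S := fun hv => hS u hu v hv huv
    exact key v hv (Sym2.mem_mk_right u v)
  · exact key u hu (Sym2.mem_mk_left u v)

/-- **Zelinka's bound.** The edge-domatic number of a finite graph is at least its minimum
degree. -/
theorem result (V : Type) [Fintype V] (G : SimpleGraph V) [DecidableRel G.Adj] :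
    G.minDegree ≤ domaticNumber G.lineGraph := by
  classical
  rcases Nat.eq_zero_or_pos G.minDegree with h0 | hpos
  · rw [h0]; exact Nat.zero_le _
  have hne : Nonempty V := by
    by_contra hcon
    rw [not_nonempty_iff] at hcon
    rw [SimpleGraph.minDegree_of_isEmpty] at hpos
    exact lt_irrefl _ hpos
  obtain ⟨v⟩ := hne
  have hdeg : ∀ v, G.minDegree ≤ G.degree v := fun v => G.minDegree_le_degree v
  obtain ⟨w, hw⟩ : ∃ w, G.Adj v w := by
    have : 0 < G.degree v := lt_of_lt_of_le hpos (hdeg v)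
    rw [← G.card_neighborFinset_eq_degree, Finset.card_pos] at this
    obtain ⟨w, hw⟩ := this
    exact ⟨w, (G.mem_neighborFinset v w).1 hw⟩
  refine le_csSup ?_ (partition G G.minDegree hpos hdeg)
  refine ⟨Fintype.card G.edgeSet, ?_⟩
  rintro k ⟨f, hf⟩
  have hsurj : Function.Surjective f := by
    intro i
    rcases hf i ⟨s(v, w), hw⟩ with h | ⟨x, hx, _⟩
    · exact ⟨_, h⟩
    · exact ⟨x, hx⟩
  have := Fintype.card_le_of_surjective f hsurj
  rwa [Fintype.card_fin] at this

end Pool.Agent.Results.MP_7b5b6d_co.ZelinkaBound
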